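import Pool.Agent.helper35.MT.AN3
import Pool.Agent.helper99.TG.SW2
import Pool.Agent.helper99.TG.SW3D

/-!
# TG (MP_d11331_al), sw:9: the series of `Λ - 1` near the line `Re s = 1`
-/

namespace Pool.Agent.helper74.TG

open Finset ArithmeticFunction Pool.Agent.helper39.MT

/-- The recursion for the derivatives of `-L'/L`, pointwise in `s`. -/
theorem h95_GG_le {q : ℕ} (hq : 0 < q) (χ : DirichletCharacter ℂ q) {s : ℂ} (hs : 1 < s.re)
    (K : ℕ) {A b : ℝ} (hA : 1 ≤ A) (hD : ∀ j ≤ K + 1, ‖DD χ j s‖ ≤ A) (hb : 0 < b) (hb1 : b ≤ 1)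
    (hb0 : b ≤ ‖DD χ 0 s‖) :
    ∀ j ≤ K, ‖GG χ j s‖ ≤ (2 ^ (K + 1) * A / b) ^ (j + 1) := by
  set X : ℝ := 2 ^ (K + 1) * A / b with hX
  have hX1 : 1 ≤ X := by
    rw [hX, le_div_iff₀ hb, one_mul]
    have : (1 : ℝ) ≤ 2 ^ (K + 1) := one_le_pow₀ (by norm_num)
    nlinarith
  intro j
  induction j using Nat.strong_induction_on with
  | _ j ih =>
    intro hj
    have hrec := DD_succ hq χ j s hs
    rw [sum_range_succ, Nat.choose_self, Nat.sub_self, Nat.cast_one, one_mul] at hrec
    have h1 : GG χ j s * DD χ 0 s = DD χ (j + 1) s -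
        ∑ i ∈ range j, (Nat.choose j i : ℂ) * GG χ i s * DD χ (j - i) s := by
      rw [hrec]; ring
    have h2 : ‖∑ i ∈ range j, (Nat.choose j i : ℂ) * GG χ i s * DD χ (j - i) s‖ ≤
        (2 : ℝ) ^ j * (X ^ j * A) := by
      calc ‖∑ i ∈ range j, (Nat.choose j i : ℂ) * GG χ i s * DD χ (j - i) s‖
          ≤ ∑ i ∈ range j, ‖(Nat.choose j i : ℂ) * GG χ i s * DD χ (j - i) s‖ := norm_sum_le _ _
        _ ≤ ∑ i ∈ range j, (Nat.choose j i : ℝ) * (X ^ j * A) := by
            refine sum_le_sum fun i hi => ?_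
            have hi' := mem_range.1 hi
            rw [norm_mul, norm_mul, Complex.norm_natCast, mul_assoc]
            refine mul_le_mul_of_nonneg_left ?_ (Nat.cast_nonneg _)
            have e1 : ‖GG χ i s‖ ≤ X ^ j := by
              refine (ih i hi' (by omega)).trans ?_
              exact pow_le_pow_right₀ hX1 (by omega)
            exact mul_le_mul e1 (hD _ (by omega)) (norm_nonneg _) (by positivity)
        _ ≤ ∑ i ∈ range (j + 1), (Nat.choose j i : ℝ) * (X ^ j * A) := by
            refine sum_le_sum_of_subset_of_nonneg (range_subset_range.2 (by omega)) ?_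
            intros; positivity
        _ = (2 : ℝ) ^ j * (X ^ j * A) := by
            rw [← sum_mul]
            congr 1
            exact_mod_cast Nat.sum_range_choose j
    have h3 : ‖GG χ j s‖ * b ≤ X ^ (j + 1) * b := by
      calc ‖GG χ j s‖ * b ≤ ‖GG χ j s‖ * ‖DD χ 0 s‖ :=
            mul_le_mul_of_nonneg_left hb0 (norm_nonneg _)
        _ = ‖DD χ (j + 1) s -
            ∑ i ∈ range j, (Nat.choose j i : ℂ) * GG χ i s * DD χ (j - i) s‖ := by
            rw [← norm_mul, h1]
        _ ≤ A + (2 : ℝ) ^ j * (X ^ j * A) :=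
            (norm_sub_le _ _).trans (add_le_add (hD _ (by omega)) h2)
        _ ≤ (2 : ℝ) ^ j * (X ^ j * A) + (2 : ℝ) ^ j * (X ^ j * A) := by
            have e1 : (1 : ℝ) ≤ 2 ^ j * X ^ j := by
              have := one_le_pow₀ (n := j) hX1
              have e2 : (1 : ℝ) ≤ 2 ^ j := one_le_pow₀ (by norm_num)
              nlinarith
            nlinarith
        _ = X ^ j * (2 ^ (j + 1) * A) := by ring
        _ ≤ X ^ j * (2 ^ (K + 1) * A) := by
            gcongr
            · norm_num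
        _ = X ^ j * (X * b) := by rw [hX]; field_simp
        _ = X ^ (j + 1) * b := by ring
    exact le_of_mul_le_mul_right h3 hb

theorem h95_one_apply (n : ℕ) : (1 : DirichletCharacter ℂ 1) (n : ZMod 1) = 1 := by
  have : IsUnit ((n : ℕ) : ZMod 1) := isUnit_of_subsingleton _
  rw [MulChar.one_apply this]

theorem h95_DD_one (j : ℕ) (s : ℂ) : DD (1 : DirichletCharacter ℂ 1) j s = ZZ j s := by
  unfold DD ZZ
  simp only [h95_one_apply, one_mul]

theorem h95_GG_one (j : ℕ) (s : ℂ) : GG (1 : DirichletCharacter ℂ 1) j s =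
    LSeries (fun n => (vonMangoldt n : ℂ) * (Real.log n : ℂ) ^ j) s := by
  unfold GG
  simp only [h95_one_apply, mul_one]

theorem h95_sub (K : ℕ) {s : ℂ} (hs : 1 < s.re) :
    LSeries (fun n => ((vonMangoldt n : ℂ) - 1) * (Real.log n : ℂ) ^ K) s =
      GG (1 : DirichletCharacter ℂ 1) K s - ZZ K s := by
  have h1 : LSeriesSummable (fun n => (vonMangoldt n : ℂ) * (Real.log n : ℂ) ^ K) s := by
    have := h35_GG_summable (1 : DirichletCharacter ℂ 1) K hs
    simpa only [h95_one_apply, mul_one] using this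
  have h2 : LSeriesSummable (fun n => (Real.log n : ℂ) ^ K) s := by
    have := h35_DD_summable (1 : DirichletCharacter ℂ 1) K hs
    simpa only [h95_one_apply, one_mul] using this
  rw [h95_GG_one]
  unfold ZZ
  rw [← LSeries_sub h1 h2]
  congr 1
  ext n
  simp only [Pi.sub_apply]
  ring

/-- growth: powers of `log log x` against `log x` -/
theorem h95_growth (C : ℝ) (m E : ℕ) : ∃ x₀ : ℝ, ∀ x : ℝ, x₀ ≤ x → ∀ t : ℝ,
    |t| ≤ Real.log x ^ m → C * (1 + Real.log (2 + |t|)) ^ E ≤ Real.log x := by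
  set C' : ℝ := max C 0 with hC'
  have h := (Real.isLittleO_pow_log_id_atTop (n := E)).bound
    (c := 1 / (C' * (m + 2) ^ E + 1)) (by positivity)
  obtain ⟨y₀, hy₀⟩ := Filter.eventually_atTop.1 h
  refine ⟨Real.exp (max y₀ 3), fun x hx t ht => ?_⟩
  have hx0 : 0 < x := (Real.exp_pos _).trans_le hx
  set y := Real.log x with hy
  have hy1 : max y₀ 3 ≤ y := by
    rw [hy, Real.le_log_iff_exp_le hx0]
    exact hx
  have hy3 : 3 ≤ y := (le_max_right _ _).trans hy1
  have hyy : y₀ ≤ y := (le_max_left _ _).trans hy1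
  have hly : 1 ≤ Real.log y := by
    rw [Real.le_log_iff_exp_le (by linarith)]
    have := Real.exp_one_lt_d9
    linarith
  have h1 : 2 + |t| ≤ y ^ (m + 1) := by
    have e1 : (1 : ℝ) ≤ y ^ m := one_le_pow₀ (by linarith)
    calc 2 + |t| ≤ 2 + y ^ m := by linarith
      _ ≤ 3 * y ^ m := by linarith
      _ ≤ y * y ^ m := by gcongr
      _ = y ^ (m + 1) := by ring
  have h2 : 1 + Real.log (2 + |t|) ≤ (m + 2) * Real.log y := by
    have e1 := Real.log_le_log (by positivity) h1
    rw [Real.log_pow] at e1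
    push_cast at e1
    nlinarith
  have h3 : 0 ≤ 1 + Real.log (2 + |t|) := by
    have : 0 ≤ Real.log (2 + |t|) := Real.log_nonneg (by linarith [abs_nonneg t])
    linarith
  have h4 := hy₀ y hyy
  simp only [id, Real.norm_eq_abs] at h4
  rw [abs_of_nonneg (by linarith : (0 : ℝ) ≤ y), abs_of_nonneg (by positivity)] at h4
  have hC0 : 0 ≤ C' := le_max_right _ _
  calc C * (1 + Real.log (2 + |t|)) ^ E ≤ C' * (1 + Real.log (2 + |t|)) ^ E :=
        mul_le_mul_of_nonneg_right (le_max_left _ _) (by positivity)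
    _ ≤ C' * ((m + 2) * Real.log y) ^ E := by gcongr
    _ = (C' * (m + 2) ^ E) * Real.log y ^ E := by rw [mul_pow]; ring
    _ ≤ (C' * (m + 2) ^ E + 1) * Real.log y ^ E := by
        gcongr
        linarith
    _ ≤ (C' * (m + 2) ^ E + 1) * (1 / (C' * (m + 2) ^ E + 1) * y) :=
        mul_le_mul_of_nonneg_left h4 (by positivity)
    _ = y := by field_simp

/-- Away from the real axis. -/
theorem h95_far (K : ℕ) : ∃ (C : ℝ) (E : ℕ), ∀ s : ℂ, 1 < s.re → s.re ≤ 2 → 1 ≤ |s.im| →
    ‖LSeries (fun n => ((vonMangoldt n : ℂ) - 1) * (Real.log n : ℂ) ^ K) s‖ ≤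
      C * ll 1 s ^ E := by
  choose Cz hCz hz using ZZ_bound_t
  obtain ⟨c, hc, hlow⟩ := zeta_lower_t
  set C₁ : ℝ := 1 + ∑ j ∈ range (K + 2), Cz j with hC₁
  set c' : ℝ := min c 1 with hc'
  have hc'0 : 0 < c' := lt_min hc one_pos
  have hsum0 : 0 ≤ ∑ j ∈ range (K + 2), Cz j := sum_nonneg fun j _ => (hCz j).le
  have hC₁1 : 1 ≤ C₁ := by linarith
  refine ⟨(2 ^ (K + 1) * C₁ / c') ^ (K + 1) + C₁, (K + 9) * (K + 1), fun s h1 h2 h3 => ?_⟩
  have hll : 1 ≤ ll 1 s := by
    unfold ll
    have : 0 ≤ Real.log (2 + |s.im|) := Real.log_nonneg (by linarith)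
    simp only [Nat.cast_one, Real.log_one]
    linarith
  have hZ : ∀ j ≤ K + 1, ‖ZZ j s‖ ≤ C₁ * ll 1 s ^ (K + 2) := by
    intro j hj
    refine (hz j s h1 h2 h3).trans ?_
    have e1 : Cz j ≤ C₁ := by
      have := single_le_sum (f := Cz) (fun i _ => (hCz i).le) (mem_range.2 (by omega : j < K + 2))
      linarith
    have e2 : ll 1 s ^ (j + 1) ≤ ll 1 s ^ (K + 2) := pow_le_pow_right₀ hll (by omega)
    exact mul_le_mul e1 e2 (by positivity) (by linarith)
  have hZK : ‖ZZ K s‖ ≤ C₁ * ll 1 s ^ ((K + 9) * (K + 1)) := by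
    refine (hz K s h1 h2 h3).trans ?_
    have e1 : Cz K ≤ C₁ := by
      have := single_le_sum (f := Cz) (fun i _ => (hCz i).le) (mem_range.2 (by omega : K < K + 2))
      linarith
    have e2 : ll 1 s ^ (K + 1) ≤ ll 1 s ^ ((K + 9) * (K + 1)) :=
      pow_le_pow_right₀ hll (by nlinarith)
    exact mul_le_mul e1 e2 (by positivity) (by linarith)
  have hG := h95_GG_le one_pos (1 : DirichletCharacter ℂ 1) h1 K
    (A := C₁ * ll 1 s ^ (K + 2)) (b := c' / ll 1 s ^ 7)
    (by
      have : 1 ≤ ll 1 s ^ (K + 2) := one_le_pow₀ hll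
      nlinarith)
    (by
      intro j hj
      rw [h95_DD_one]
      exact hZ j hj)
    (by positivity)
    (by
      rw [div_le_one (by positivity)]
      exact (min_le_right _ _).trans (one_le_pow₀ hll))
    (by
      rw [h95_DD_one, h99_ZZ_zero h1]
      refine le_trans ?_ (hlow s h1 h2 h3)
      exact div_le_div_of_nonneg_right (min_le_left _ _) (by positivity)) K le_rfl
  have hG' : ‖GG (1 : DirichletCharacter ℂ 1) K s‖ ≤
      (2 ^ (K + 1) * C₁ / c') ^ (K + 1) * ll 1 s ^ ((K + 9) * (K + 1)) := by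
    refine hG.trans (le_of_eq ?_)
    have : 2 ^ (K + 1) * (C₁ * ll 1 s ^ (K + 2)) / (c' / ll 1 s ^ 7) =
        (2 ^ (K + 1) * C₁ / c') * ll 1 s ^ (K + 9) := by
      field_simp
      ring
    rw [this, mul_pow, ← pow_mul]
  rw [h95_sub K h1]
  calc _ ≤ ‖GG (1 : DirichletCharacter ℂ 1) K s‖ + ‖ZZ K s‖ := norm_sub_le _ _
    _ ≤ _ := add_le_add hG' hZK
    _ = _ := by ring

/-- Near the real axis. -/
theorem h95_near (K : ℕ) : ∃ C : ℝ, ∀ s : ℂ, 1 < s.re → s.re ≤ 2 → |s.im| ≤ 1 →
    ‖LSeries (fun n => ((vonMangoldt n : ℂ) - 1) * (Real.log n : ℂ) ^ K) s‖ ≤ C := by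
  set h : ℂ → ℂ := DirichletCharacter.LFunctionTrivChar₁ 1 with hh
  have hdiff : Differentiable ℂ h := DirichletCharacter.differentiable_LFunctionTrivChar₁ 1
  have hζ : DirichletCharacter.LFunctionTrivChar 1 = riemannZeta := by
    unfold DirichletCharacter.LFunctionTrivChar
    exact DirichletCharacter.LFunction_modOne_eq
  have h_ne : ∀ s : ℂ, s ≠ 1 → h s = (s - 1) * riemannZeta s := by
    intro s hs
    rw [hh, DirichletCharacter.LFunctionTrivChar₁, Function.update_of_ne hs, hζ]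
  have h_one : h 1 = 1 := by
    rw [hh, DirichletCharacter.LFunctionTrivChar₁, Function.update_self]
    simp
  set U : Set ℂ := {s | h s ≠ 0} with hU
  have hUopen : IsOpen U := isOpen_ne_fun hdiff.continuous continuous_const
  have hUmem : ∀ s : ℂ, 1 ≤ s.re → s ∈ U := by
    intro s hs
    rw [hU, Set.mem_ofPred_eq]
    by_cases h1 : s = 1
    · rw [h1, h_one]; exact one_ne_zero
    · rw [h_ne s h1]
      exact mul_ne_zero (sub_ne_zero.2 h1) (riemannZeta_ne_zero_of_one_le_re hs)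
  set Φ : ℂ → ℂ := fun s => -deriv h s / h s - dslope h 1 s with hΦ
  have hds : Differentiable ℂ (dslope h 1) := by
    rw [← differentiableOn_univ]
    exact (Complex.differentiableOn_dslope Filter.univ_mem).2 hdiff.differentiableOn
  have hΦd : DifferentiableOn ℂ Φ U := by
    intro s hs
    refine DifferentiableAt.differentiableWithinAt ?_
    have hd' : DifferentiableAt ℂ (deriv h) s := by
      have : AnalyticAt ℂ h s := hdiff.analyticAt s
      exact this.deriv.differentiableAt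
    exact ((hd'.neg).div (hdiff s) hs).sub (hds s)
  have hcont : ContinuousOn (iteratedDeriv K Φ) U := by
    rw [iteratedDeriv_eq_iterate]
    have hana : AnalyticOnNhd ℂ Φ U := hΦd.analyticOnNhd hUopen
    exact (hana.iterated_deriv K).continuousOn
  set f : ℕ → ℂ := fun n => (vonMangoldt n : ℂ) - 1 with hf
  have hfs : ∀ s : ℂ, 1 < s.re → LSeriesSummable f s := by
    intro s hs
    have h1 : LSeriesSummable (fun n => (vonMangoldt n : ℂ)) s :=
      ArithmeticFunction.LSeriesSummable_vonMangoldt hs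
    have h2 : LSeriesSummable (1 : ℕ → ℂ) s := LSeriesSummable_one_iff.2 hs
    exact h1.sub h2
  have habs : ∀ s : ℂ, 1 < s.re → LSeries.abscissaOfAbsConv f < s.re := by
    intro s hs
    refine lt_of_le_of_lt (b := (1 : EReal)) ?_ (by exact_mod_cast hs)
    exact_mod_cast LSeries.abscissaOfAbsConv_le_of_forall_lt_LSeriesSummable (x := 1)
      (fun y hy => hfs y (by simpa using hy))
  have heq : ∀ s : ℂ, 1 < s.re → LSeries f s = Φ s := by
    intro s hs
    have hs1 : s ≠ 1 := by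
      rintro rfl
      simp at hs
    have h1 : LSeriesSummable (fun n => (vonMangoldt n : ℂ)) s :=
      ArithmeticFunction.LSeriesSummable_vonMangoldt hs
    have h2 : LSeriesSummable (1 : ℕ → ℂ) s := LSeriesSummable_one_iff.2 hs
    have e1 : LSeries f s = LSeries (fun n => (vonMangoldt n : ℂ)) s - LSeries 1 s := by
      rw [← LSeries_sub h1 h2]
      rfl
    have e2 : LSeries (fun n => (vonMangoldt n : ℂ)) s = -deriv riemannZeta s / riemannZeta s :=
      ArithmeticFunction.LSeries_vonMangoldt_eq_deriv_riemannZeta_div hs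
    have e3 : LSeries 1 s = riemannZeta s := LSeries_one_eq_riemannZeta hs
    have e4 : deriv h s = (s - 1) * deriv riemannZeta s + riemannZeta s := by
      rw [hh, DirichletCharacter.deriv_LFunctionTrivChar₁_apply_of_ne_one 1 hs1, hζ]
    have e5 : dslope h 1 s = (h s - 1) / (s - 1) := by
      rw [dslope_of_ne _ hs1, slope_def_field, h_one]
    have hz0 : riemannZeta s ≠ 0 := riemannZeta_ne_zero_of_one_le_re hs.le
    have hs10 : s - 1 ≠ 0 := sub_ne_zero.2 hs1
    rw [e1, e2, e3]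
    simp only [hΦ]
    rw [e5, e4, h_ne s hs1]
    field_simp
    ring
  have hcomp : IsCompact (Set.Icc (1 : ℝ) 2 ×ℂ Set.Icc (-1 : ℝ) 1) :=
    isCompact_Icc.reProdIm isCompact_Icc
  obtain ⟨C, hC⟩ := hcomp.exists_bound_of_continuousOn (hcont.mono (fun s hs => by
    rw [Complex.mem_reProdIm] at hs
    exact hUmem s hs.1.1))
  refine ⟨C, fun s h1 h2 h3 => ?_⟩
  have h4 := hC s (by
    rw [Complex.mem_reProdIm]
    exact ⟨⟨h1.le, h2⟩, abs_le.1 h3⟩)
  have h5 : iteratedDeriv K Φ s = iteratedDeriv K (LSeries f) s := by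
    refine Filter.EventuallyEq.iteratedDeriv_eq K ?_
    have : {z : ℂ | 1 < z.re} ∈ nhds s := (isOpen_lt continuous_const Complex.continuous_re).mem_nhds h1
    filter_upwards [this] with z hz
    exact (heq z hz).symm
  rw [h5, LSeries_iteratedDeriv K (habs s h1), norm_mul, norm_pow, norm_neg, norm_one, one_pow,
    one_mul] at h4
  refine le_trans (le_of_eq ?_) h4
  congr 1
  refine LSeries_congr (fun {n} hn => ?_) s
  have hiter : ∀ k : ℕ, ∀ n : ℕ, (LSeries.logMul^[k] f) n = (Complex.log n) ^ k * f n := by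
    intro k
    induction k with
    | zero => intro n; simp
    | succ k ih =>
      intro n
      rw [Function.iterate_succ_apply', LSeries.logMul, ih n]
      ring
  rw [hiter, ← Complex.natCast_log, hf]
  ring

/-- sw:9 -/
theorem zeta_GG (K m : ℕ) : ∃ x₀ : ℝ, ∀ x : ℝ, x₀ ≤ x → ∀ t : ℝ, |t| ≤ Real.log x ^ m →
    ‖LSeries (fun n => ((vonMangoldt n : ℂ) - 1) * (Real.log n : ℂ) ^ K)
      (1 + 1 / (Real.log x : ℂ) + t * Complex.I)‖ ≤ Real.log x := by
  obtain ⟨C₁, E, h₁⟩ := h95_far K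
  obtain ⟨C₂, h₂⟩ := h95_near K
  obtain ⟨x₁, hx₁⟩ := h95_growth C₁ m E
  refine ⟨max x₁ (Real.exp (max C₂ 1)), fun x hx t ht => ?_⟩
  have hx1 : x₁ ≤ x := (le_max_left _ _).trans hx
  have hx2 : Real.exp (max C₂ 1) ≤ x := (le_max_right _ _).trans hx
  have hx0 : 0 < x := (Real.exp_pos _).trans_le hx2
  have hy : max C₂ 1 ≤ Real.log x := (Real.le_log_iff_exp_le hx0).2 hx2
  have hy1 : 1 ≤ Real.log x := (le_max_right _ _).trans hy
  have hyC : C₂ ≤ Real.log x := (le_max_left _ _).trans hy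
  set s : ℂ := 1 + 1 / (Real.log x : ℂ) + t * Complex.I with hs
  have hre : s.re = 1 + 1 / Real.log x := by
    rw [hs]
    have : (1 / (Real.log x : ℂ)) = ((1 / Real.log x : ℝ) : ℂ) := by push_cast; ring
    rw [this]
    simp
  have him : s.im = t := by
    rw [hs]
    have : (1 / (Real.log x : ℂ)) = ((1 / Real.log x : ℝ) : ℂ) := by push_cast; ring
    rw [this]
    simp
  have h1 : 1 < s.re := by
    rw [hre]
    have : 0 < 1 / Real.log x := by positivity
    linarith
  have h2 : s.re ≤ 2 := by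
    rw [hre]
    have : 1 / Real.log x ≤ 1 := by
      rw [div_le_one (by linarith)]
      exact hy1
    linarith
  by_cases h3 : 1 ≤ |s.im|
  · refine (h₁ s h1 h2 h3).trans ?_
    have := hx₁ x hx1 t ht
    unfold ll
    rw [him]
    simp only [Nat.cast_one, Real.log_one, add_zero]
    exact this
  · push Not at h3
    exact (h₂ s h1 h2 h3.le).trans hyC

end Pool.Agent.helper74.TG
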