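import Pool.Agent.helper74.TG.Defs
import Pool.Agent.helper95.MT.GGcrude

/-!
# TG (MP_d11331_al), sw:3c: the trivial lower bound of `L(s,χ)`
-/

namespace Pool.Agent.helper74.TG

open Finset ArithmeticFunction Pool.Agent.helper39.MT

/-- sw:3c: the trivial lower bound. -/
theorem lower_trivial : ∃ c : ℝ, 0 < c ∧ ∀ q : ℕ, 0 < q → ∀ χ : DirichletCharacter ℂ q,
    ∀ s : ℂ, 1 < s.re → s.re ≤ 2 → c * (s.re - 1) ≤ ‖DD χ 0 s‖ := by
  refine ⟨1 / 3, by norm_num, fun q _ χ s h1 h2 => ?_⟩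
  set a : ℕ → ℂ := (fun n : ℕ => χ n) * (fun n : ℕ => ((ArithmeticFunction.moebius n : ℤ) : ℂ))
    with ha
  have hmul : LSeries (fun n : ℕ => χ n) s * LSeries a s = 1 :=
    DirichletCharacter.LSeries.mul_mu_eq_one χ h1
  have hD : DD χ 0 s = LSeries (fun n : ℕ => χ n) s := by
    unfold DD
    simp
  have hcoef : ∀ n : ℕ, ‖a n‖ ≤ Real.log n ^ 0 := by
    intro n
    rw [ha, Pi.mul_apply, norm_mul, pow_zero]
    have e1 : ‖χ (n : ZMod q)‖ ≤ 1 := h95_norm_chi_le χ n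
    have e2 : ‖((ArithmeticFunction.moebius n : ℤ) : ℂ)‖ ≤ 1 := by
      rw [Complex.norm_intCast]
      exact_mod_cast ArithmeticFunction.abs_moebius_le_one
    calc ‖χ (n : ZMod q)‖ * ‖((ArithmeticFunction.moebius n : ℤ) : ℂ)‖ ≤ 1 * 1 :=
          mul_le_mul e1 e2 (norm_nonneg _) zero_le_one
      _ = 1 := one_mul _
  have hδ : 0 < s.re - 1 := by linarith
  have hb := h95_LSeries_le 0 hcoef hδ (by ring)
  have hsum : Summable fun n => ‖LSeries.term a s n‖ := (h95_summable 0 hcoef h1).norm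
  have hb2 : ‖LSeries a s‖ ≤ 3 / (s.re - 1) := by
    unfold LSeries
    refine (norm_tsum_le_tsum_norm hsum).trans (hb.trans ?_)
    rw [Nat.factorial_zero, pow_zero, Nat.cast_one, one_mul, one_mul, div_add' _ _ _ hδ.ne']
    exact div_le_div_of_nonneg_right (by linarith) hδ.le
  rw [hD]
  have hn : ‖LSeries (fun n : ℕ => χ n) s‖ * ‖LSeries a s‖ = 1 := by
    rw [← norm_mul, hmul, norm_one]
  have hpos : 0 ≤ ‖LSeries (fun n : ℕ => χ n) s‖ := norm_nonneg _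
  have h3 : 1 ≤ ‖LSeries (fun n : ℕ => χ n) s‖ * (3 / (s.re - 1)) := by
    exact hn.symm.le.trans (mul_le_mul_of_nonneg_left hb2 hpos)
  have h4 : ‖LSeries (fun n : ℕ => χ n) s‖ * (3 / (s.re - 1)) =
      (‖LSeries (fun n : ℕ => χ n) s‖ * 3) / (s.re - 1) := by ring
  rw [h4, le_div_iff₀ hδ] at h3
  linarith

end Pool.Agent.helper74.TG
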