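import Pool.Agent.helper85.TG.VA1
import Pool.Agent.helper18.TG.WT1
import Pool.Agent.helper61.TG.WT3

/-!
# TG (MP_d11331_al), wt:4: the weight is close to the model
-/

namespace Pool.Agent.helper74.TG

open Finset ArithmeticFunction

theorem h95_gb_le {X β δ : ℝ} (hδ : 0 < δ) (h : ∀ k : ℤ, δ ≤ |β - k|) :
    gb X β ≤ 1 / (2 * δ) := by
  have h1 := h (round β)
  have h2 : 0 < |β - round β| := lt_of_lt_of_le hδ h1
  unfold gb
  split_ifs with hX
  · rw [le_div_iff₀ (by positivity)]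
    by_cases hX0 : 0 ≤ X
    · nlinarith
    · push Not at hX0
      nlinarith
  · exact one_div_le_one_div_of_le (by positivity) (by linarith)

theorem h95_ee_int (x : ℕ) (k : ℤ) : ee ((x : ℝ) * k) = 1 := by
  unfold ee
  have := Complex.exp_int_mul_two_pi_mul_I ((x : ℤ) * k)
  rw [← this]
  congr 1
  push_cast
  ring

theorem h95_ee_shift (x : ℕ) (α : ℝ) (k : ℤ) : ee ((x : ℝ) * (α + k)) = ee (x * α) := by
  rw [mul_add, h85_ee_add, h95_ee_int, mul_one]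

theorem h95_geom {u : ℕ} {β δ : ℝ} (hδ : 0 < δ) (h : ∀ k : ℤ, δ ≤ |β - k|) :
    ‖∑ x ∈ Ioc 0 u, ee ((x : ℝ) * β)‖ ≤ 1 / (2 * δ) :=
  (geom_bound 0 u (Nat.zero_le u) β).trans (h95_gb_le hδ h)

theorem h95_card_Fa (Q : ℕ) : ((Fa Q).card : ℝ) ≤ (Q : ℝ) ^ 2 := by
  have : (Fa Q).card ≤ Q ^ 2 := by
    unfold Fa
    rw [card_sigma]
    calc ∑ q ∈ Ioc 0 Q, ((range q).filter fun a => Nat.Coprime a q).card
        ≤ ∑ q ∈ Ioc 0 Q, Q := by
          refine sum_le_sum fun q hq => ?_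
          refine (card_filter_le _ _).trans ?_
          rw [card_range]
          exact (mem_Ioc.1 hq).2
      _ = Q ^ 2 := by simp [sq]
  exact_mod_cast this

theorem h95_mem_Fa {Q : ℕ} {r : Σ _ : ℕ, ℕ} :
    r ∈ Fa Q ↔ (0 < r.1 ∧ r.1 ≤ Q) ∧ r.2 < r.1 ∧ Nat.Coprime r.2 r.1 := by
  unfold Fa
  simp [mem_sigma]

theorem h95_gm_sum (m c Q u : ℕ) (α : ℝ) :
    ∑ x ∈ Ioc 0 u, gm m c Q x * ee ((x : ℝ) * α) =
      ∑ r ∈ Fa Q, Hc m c r.2 r.1 * ∑ x ∈ Ioc 0 u, ee ((x : ℝ) * (α + r.2 / r.1)) := by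
  unfold gm
  simp_rw [sum_mul, mul_sum]
  rw [sum_comm]
  refine sum_congr rfl fun r _ => sum_congr rfl fun x _ => ?_
  rw [mul_assoc, ← h85_ee_add]
  congr 2
  ring

theorem h95_sub_bound {m c Q u : ℕ} (hm : 0 < m) {T : Finset (Σ _ : ℕ, ℕ)} (hT : T ⊆ Fa Q)
    {α δ : ℝ} (hδ : 0 < δ) (h : ∀ r ∈ T, ∀ k : ℤ, δ ≤ |α + r.2 / r.1 - k|) :
    ‖∑ r ∈ T, Hc m c r.2 r.1 * ∑ x ∈ Ioc 0 u, ee ((x : ℝ) * (α + r.2 / r.1))‖ ≤
      (Q : ℝ) ^ 2 * (1 / (2 * δ)) := by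
  calc ‖∑ r ∈ T, Hc m c r.2 r.1 * ∑ x ∈ Ioc 0 u, ee ((x : ℝ) * (α + r.2 / r.1))‖
      ≤ ∑ r ∈ T, ‖Hc m c r.2 r.1 * ∑ x ∈ Ioc 0 u, ee ((x : ℝ) * (α + r.2 / r.1))‖ :=
        norm_sum_le _ _
    _ ≤ ∑ r ∈ T, (1 / (2 * δ)) := by
        refine sum_le_sum fun r hr => ?_
        have hr' := h95_mem_Fa.1 (hT hr)
        rw [norm_mul]
        have h1 : ‖Hc m c r.2 r.1‖ ≤ 1 := by
          refine (Hc_bound m c r.2 r.1 hm hr'.1.1 hr'.2.2).trans ?_
          rw [div_le_one (by exact_mod_cast Nat.totient_pos.2 hr'.1.1)]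
          exact_mod_cast Nat.totient_pos.2 hr'.1.1
        have h2 := h95_geom (u := u) hδ (h r hr)
        calc ‖Hc m c r.2 r.1‖ * ‖∑ x ∈ Ioc 0 u, ee ((x : ℝ) * (α + r.2 / r.1))‖
            ≤ 1 * (1 / (2 * δ)) := mul_le_mul h1 h2 (norm_nonneg _) zero_le_one
          _ = 1 / (2 * δ) := one_mul _
    _ = T.card * (1 / (2 * δ)) := by rw [sum_const, nsmul_eq_mul]
    _ ≤ (Q : ℝ) ^ 2 * (1 / (2 * δ)) := by
        refine mul_le_mul_of_nonneg_right ?_ (by positivity)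
        refine le_trans ?_ (h95_card_Fa Q)
        exact_mod_cast card_le_card hT

/-- Two different reduced fractions in `[0, 1)` are not close modulo `1`. -/
theorem h95_frac {q a q' a' Q : ℕ} (hq : 0 < q) (hqQ : q ≤ Q) (ha : a < q) (hc : Nat.Coprime a q)
    (hq' : 0 < q') (hqQ' : q' ≤ Q) (ha' : a' < q') (hc' : Nat.Coprime a' q')
    (hne : ¬ (q' = q ∧ a' = a)) (k : ℤ) :
    1 / (Q : ℝ) ^ 2 ≤ |-(a / q : ℝ) + a' / q' - k| := by
  have hQ : 0 < Q := lt_of_lt_of_le hq hqQ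
  set z : ℤ := (a' : ℤ) * q - a * q' - k * q * q' with hz
  have hz0 : z ≠ 0 := by
    intro h0
    have h1 : (a' : ℤ) * q = (a + k * q) * q' := by rw [hz] at h0; linarith
    have hcop : IsCoprime ((a : ℤ) + k * q) (q : ℤ) := by
      have : IsCoprime (a : ℤ) (q : ℤ) := Nat.isCoprime_iff_coprime.2 hc
      exact IsCoprime.add_mul_right_left this k
    have hcop' : IsCoprime (a' : ℤ) (q' : ℤ) := Nat.isCoprime_iff_coprime.2 hc'
    have d1 : (q : ℤ) ∣ q' := by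
      have : (q : ℤ) ∣ (a + k * q) * q' := ⟨a', by rw [← h1]; ring⟩
      exact hcop.symm.dvd_of_dvd_mul_left this
    have d2 : (q' : ℤ) ∣ q := by
      have : (q' : ℤ) ∣ a' * q := ⟨a + k * q, by rw [h1]; ring⟩
      exact hcop'.symm.dvd_of_dvd_mul_left this
    have hqq : q' = q := by
      have e1 : q ∣ q' := by exact_mod_cast d1
      have e2 : q' ∣ q := by exact_mod_cast d2
      exact Nat.dvd_antisymm e2 e1
    subst hqq
    have h2 : (a' : ℤ) = a + k * q' := by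
      have : (q' : ℤ) ≠ 0 := by exact_mod_cast hq.ne'
      exact mul_right_cancel₀ this h1
    have hk : k = 0 := by
      by_contra hk
      rcases lt_or_gt_of_ne hk with hk | hk
      · have : k ≤ -1 := by omega
        have hq0 : (0 : ℤ) < q' := by exact_mod_cast hq
        have ha1 : (a : ℤ) < q' := by exact_mod_cast ha
        have ha2 : (0 : ℤ) ≤ a' := by positivity
        nlinarith
      · have : 1 ≤ k := by omega
        have hq0 : (0 : ℤ) < q' := by exact_mod_cast hq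
        have ha1 : (a' : ℤ) < q' := by exact_mod_cast ha'
        have ha2 : (0 : ℤ) ≤ a := by positivity
        nlinarith
    rw [hk] at h2
    refine hne ⟨rfl, ?_⟩
    have : (a' : ℤ) = a := by linarith
    exact_mod_cast this
  have hz1 : (1 : ℝ) ≤ |(z : ℝ)| := by
    have := Int.one_le_abs hz0
    exact_mod_cast this
  have hqr : (0 : ℝ) < q := by exact_mod_cast hq
  have hqr' : (0 : ℝ) < q' := by exact_mod_cast hq'
  have heq : -(a / q : ℝ) + a' / q' - k = (z : ℝ) / (q * q') := by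
    rw [hz]
    push_cast
    field_simp
    ring
  rw [heq, abs_div, abs_of_pos (mul_pos hqr hqr')]
  have hQr : (q : ℝ) * q' ≤ (Q : ℝ) ^ 2 := by
    have e1 : (q : ℝ) ≤ Q := by exact_mod_cast hqQ
    have e2 : (q' : ℝ) ≤ Q := by exact_mod_cast hqQ'
    nlinarith
  exact div_le_div₀ (abs_nonneg _) hz1 (mul_pos hqr hqr') hQr

theorem h95_log_pow (n : ℕ) (C : ℝ) (hC : 0 < C) : ∃ N₀ : ℕ, ∀ N : ℕ, N₀ ≤ N →
    C * Real.log N ^ n ≤ N := by
  have h := (Real.isLittleO_pow_log_id_atTop (n := n)).bound (c := 1 / C) (by positivity)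
  have h2 := (tendsto_natCast_atTop_atTop (R := ℝ)).eventually h
  obtain ⟨N₀, hN₀⟩ := Filter.eventually_atTop.1 h2
  refine ⟨N₀ + 1, fun N hN => ?_⟩
  have h3 := hN₀ N (by omega)
  simp only [id, Real.norm_eq_abs] at h3
  rw [abs_of_nonneg (Nat.cast_nonneg N : (0 : ℝ) ≤ (N : ℝ))] at h3
  have h4 := (le_abs_self (Real.log N ^ n)).trans h3
  calc C * Real.log N ^ n ≤ C * (1 / C * N) := mul_le_mul_of_nonneg_left h4 hC.le
    _ = N := by field_simp

theorem h95_log_ge (C : ℝ) : ∃ N₀ : ℕ, ∀ N : ℕ, N₀ ≤ N → C ≤ Real.log N := by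
  refine ⟨⌈Real.exp C⌉₊ + 1, fun N hN => ?_⟩
  have h1 : Real.exp C ≤ N := (Nat.le_ceil _).trans (by exact_mod_cast (by omega))
  calc C = Real.log (Real.exp C) := (Real.log_exp C).symm
    _ ≤ Real.log N := Real.log_le_log (Real.exp_pos C) h1

/-- wt:4: the weight is close to the model, from the major arc estimate `fw_major 15 103`. -/
theorem fw_close_of (m c : ℕ)
    (fw_major : ∃ N₀ : ℕ, ∀ N : ℕ, N₀ ≤ N →
      ∀ a q : ℕ, 0 < q → (q : ℝ) ≤ Real.log N ^ 103 → Nat.Coprime a q →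
      ∀ β : ℝ, |β| ≤ Real.log N ^ 103 / N → ∀ u : ℕ, u ≤ N →
      ‖∑ x ∈ Ioc 0 u, (fw m c x : ℂ) * ee (x * (-(a / q) + β)) -
        Hc m c a q * ∑ x ∈ Ioc 0 u, ee (x * β)‖ ≤ N / Real.log N ^ 15)
    (hm : 0 < m) (hc : Nat.Coprime c m) : ∃ N₀ : ℕ, ∀ N : ℕ, N₀ ≤ N →
    ∀ α : ℝ, ∀ u : ℕ, u ≤ N →
    ‖∑ x ∈ Ioc 0 u, ((fw m c x : ℂ) - gm m c ⌊Real.log N ^ 44⌋₊ x) * ee (x * α)‖
      ≤ N / Real.log N ^ 14 := by
  obtain ⟨N₁, h₁⟩ := fw_major
  obtain ⟨N₂, h₂⟩ := fw_minor 15 m c hm hc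
  obtain ⟨N₃, h₃⟩ := h95_log_pow 191 2 (by norm_num)
  obtain ⟨N₄, h₄⟩ := h95_log_ge 2
  refine ⟨max (max N₁ N₂) (max N₃ (max N₄ 1)), fun N hN α u hu => ?_⟩
  have hN1 : N₁ ≤ N := by omega
  have hN2 : N₂ ≤ N := by omega
  have hN3 : N₃ ≤ N := by omega
  have hN4 : N₄ ≤ N := by omega
  have hN5 : 1 ≤ N := by omega
  have hNr : (0 : ℝ) < N := by exact_mod_cast hN5
  set L : ℝ := Real.log N with hL
  have hL2 : 2 ≤ L := h₄ N hN4
  have hL191 : 2 * L ^ 191 ≤ N := h₃ N hN3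
  have hL0 : 0 < L := by linarith
  have hL1 : 1 ≤ L := by linarith
  set Q : ℕ := ⌊L ^ 44⌋₊ with hQ
  have hQL : (Q : ℝ) ≤ L ^ 44 := Nat.floor_le (by positivity)
  have hQ1 : 1 ≤ Q := by
    rw [hQ, Nat.one_le_floor_iff]
    exact one_le_pow₀ hL1
  have hQ2 : (Q : ℝ) ^ 2 ≤ L ^ 88 := by
    calc (Q : ℝ) ^ 2 ≤ (L ^ 44) ^ 2 := by gcongr
      _ = L ^ 88 := by rw [← pow_mul]
  by_cases hM : ∃ (a : ℤ) (q : ℕ), 0 < q ∧ q ≤ Q ∧ IsCoprime a (q : ℤ) ∧
      |α + a / q| ≤ L ^ 103 / N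
  · -- major arcs
    obtain ⟨a, q, hq, hqQ, hcop, hβ⟩ := hM
    have hq0 : (q : ℤ) ≠ 0 := by exact_mod_cast hq.ne'
    have hqr : (q : ℝ) ≠ 0 := by exact_mod_cast hq.ne'
    obtain ⟨b, hb⟩ : ∃ b : ℕ, (b : ℤ) = a % q :=
      ⟨(a % q).toNat, Int.toNat_of_nonneg (Int.emod_nonneg a hq0)⟩
    have hbq : b < q := by
      have : (b : ℤ) < q := by
        rw [hb]; exact Int.emod_lt_of_pos a (by exact_mod_cast hq)
      exact_mod_cast this
    have hab : a = b + (a / q) * q := by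
      rw [hb]
      have := Int.emod_add_mul_ediv a q
      linarith [mul_comm (q : ℤ) (a / q)]
    set k : ℤ := a / q with hk
    have hbcop : Nat.Coprime b q := by
      rw [← Nat.isCoprime_iff_coprime]
      have h5 : (b : ℤ) = a + (-k) * q := by linarith
      rw [h5]
      exact IsCoprime.add_mul_right_left hcop (-k)
    set β : ℝ := α + a / q with hβdef
    have hα : α = (-(b / q : ℝ) + β) + ((-k : ℤ) : ℝ) := by
      rw [hβdef]
      have : (a : ℝ) = b + k * q := by exact_mod_cast hab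
      rw [this]
      push_cast
      field_simp
      ring
    have hsum : ∀ F : ℕ → ℂ, ∑ x ∈ Ioc 0 u, F x * ee (x * α) =
        ∑ x ∈ Ioc 0 u, F x * ee (x * (-(b / q : ℝ) + β)) := by
      intro F
      refine sum_congr rfl fun x _ => ?_
      conv_lhs => rw [hα]
      rw [h95_ee_shift]
    have hf := h₁ N hN1 b q hq (by
      calc (q : ℝ) ≤ Q := by exact_mod_cast hqQ
        _ ≤ L ^ 44 := hQL
        _ ≤ L ^ 103 := pow_le_pow_right₀ hL1 (by norm_num)) hbcop β hβ u hu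
    set r₀ : Σ _ : ℕ, ℕ := ⟨q, b⟩ with hr₀
    have hr₀m : r₀ ∈ Fa Q := h95_mem_Fa.2 ⟨⟨hq, hqQ⟩, hbq, hbcop⟩
    have hg : ‖∑ r ∈ (Fa Q).erase r₀, Hc m c r.2 r.1 *
        ∑ x ∈ Ioc 0 u, ee ((x : ℝ) * ((-(b / q : ℝ) + β) + r.2 / r.1))‖ ≤
        (Q : ℝ) ^ 2 * (1 / (2 * (1 / (2 * L ^ 88)))) := by
      refine h95_sub_bound hm (erase_subset _ _) (by positivity) fun r hr k' => ?_
      have hr1 := h95_mem_Fa.1 (mem_of_mem_erase hr)
      have hr2 : ¬ (r.1 = q ∧ r.2 = b) := by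
        rintro ⟨e1, e2⟩
        refine (ne_of_mem_erase hr) ?_
        rw [hr₀]
        exact Sigma.ext e1 (heq_of_eq e2)
      have h6 := h95_frac hq hqQ hbq hbcop hr1.1.1 hr1.1.2 hr1.2.1 hr1.2.2 hr2 k'
      have h7 : 1 / L ^ 88 ≤ 1 / (Q : ℝ) ^ 2 := by
        refine one_div_le_one_div_of_le ?_ hQ2
        have : (0 : ℝ) < Q := by exact_mod_cast hQ1
        positivity
      have h8 : L ^ 103 / N ≤ 1 / (2 * L ^ 88) := by
        rw [div_le_div_iff₀ hNr (by positivity)]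
        have e1 : L ^ 103 * (2 * L ^ 88) = 2 * L ^ 191 := by ring
        rw [e1, one_mul]
        exact hL191
      have h9 : -(b / q : ℝ) + β + r.2 / r.1 - k' = (-(b / q : ℝ) + r.2 / r.1 - k') + β := by ring
      rw [h9]
      have h10 : |(-(b / q : ℝ) + r.2 / r.1 - k')| - |β| ≤
          |(-(b / q : ℝ) + r.2 / r.1 - k') + β| := by
        have := abs_sub_abs_le_abs_sub (-(b / q : ℝ) + r.2 / r.1 - k') (-β)
        rw [abs_neg, sub_neg_eq_add] at this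
        exact this
      have h11 : 1 / L ^ 88 - 1 / (2 * L ^ 88) = 1 / (2 * L ^ 88) := by
        field_simp
        norm_num
      linarith
    have hG : ∑ x ∈ Ioc 0 u, gm m c Q x * ee (x * (-(b / q : ℝ) + β)) =
        Hc m c b q * ∑ x ∈ Ioc 0 u, ee ((x : ℝ) * β) +
        ∑ r ∈ (Fa Q).erase r₀, Hc m c r.2 r.1 *
          ∑ x ∈ Ioc 0 u, ee ((x : ℝ) * ((-(b / q : ℝ) + β) + r.2 / r.1)) := by
      rw [h95_gm_sum, ← add_sum_erase _ _ hr₀m]
      congr 2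
      refine sum_congr rfl fun x _ => ?_
      congr 1
      simp only [hr₀]
      ring
    have hfin : ∑ x ∈ Ioc 0 u, ((fw m c x : ℂ) - gm m c Q x) * ee (x * α) =
        (∑ x ∈ Ioc 0 u, (fw m c x : ℂ) * ee (x * (-(b / q : ℝ) + β)) -
          Hc m c b q * ∑ x ∈ Ioc 0 u, ee ((x : ℝ) * β)) -
        ∑ r ∈ (Fa Q).erase r₀, Hc m c r.2 r.1 *
          ∑ x ∈ Ioc 0 u, ee ((x : ℝ) * ((-(b / q : ℝ) + β) + r.2 / r.1)) := by
      rw [hsum (fun x => (fw m c x : ℂ) - gm m c Q x)]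
      simp_rw [sub_mul]
      rw [sum_sub_distrib, hG]
      ring
    rw [hfin]
    have hQ4 : (Q : ℝ) ^ 2 * (1 / (2 * (1 / (2 * L ^ 88)))) ≤ N / L ^ 15 := by
      rw [le_div_iff₀ (by positivity)]
      calc (Q : ℝ) ^ 2 * (1 / (2 * (1 / (2 * L ^ 88)))) * L ^ 15
          ≤ L ^ 88 * (1 / (2 * (1 / (2 * L ^ 88)))) * L ^ 15 := by gcongr
        _ = L ^ 191 := by field_simp
        _ ≤ N := by nlinarith [pow_pos hL0 191]
    calc _ ≤ N / L ^ 15 + N / L ^ 15 :=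
          (norm_sub_le _ _).trans (add_le_add hf (hg.trans hQ4))
      _ = 2 * N / L ^ 15 := by ring
      _ ≤ N / L ^ 14 := by
          rw [div_le_div_iff₀ (by positivity) (by positivity)]
          have : L ^ 15 = L * L ^ 14 := by ring
          rw [this]
          have h12 : 0 < (N : ℝ) * L ^ 14 := by positivity
          nlinarith
  · -- minor arcs
    have hf := h₂ N hN2 α (by
      rintro ⟨a, q, hq, hqL, hcop, hβ⟩
      refine hM ⟨a, q, hq, ?_, hcop, hβ.trans ?_⟩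
      · rw [hQ]
        refine Nat.le_floor (hqL.trans ?_)
        exact pow_le_pow_right₀ hL1 (by norm_num)
      · exact div_le_div_of_nonneg_right (pow_le_pow_right₀ hL1 (by norm_num)) hNr.le) u hu
    have hδ : 0 < L ^ 103 / N := by positivity
    have hg := h95_sub_bound (m := m) (c := c) (Q := Q) (u := u) hm (Subset.refl (Fa Q))
      (α := α) hδ (fun r hr k => by
        by_contra hlt
        push Not at hlt
        have hr1 := h95_mem_Fa.1 hr
        refine hM ⟨(r.2 : ℤ) + (-k) * r.1, r.1, hr1.1.1, hr1.1.2, ?_, ?_⟩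
        · exact IsCoprime.add_mul_right_left (Nat.isCoprime_iff_coprime.2 hr1.2.2) (-k)
        · have hr0 : (r.1 : ℝ) ≠ 0 := by exact_mod_cast hr1.1.1.ne'
          have : α + (((r.2 : ℤ) + (-k) * r.1 : ℤ) : ℝ) / r.1 = α + r.2 / r.1 - k := by
            push_cast
            field_simp
            ring
          rw [this]
          exact hlt.le)
    have hfin : ∑ x ∈ Ioc 0 u, ((fw m c x : ℂ) - gm m c Q x) * ee (x * α) =
        ∑ x ∈ Ioc 0 u, (fw m c x : ℂ) * ee (x * α) -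
        ∑ r ∈ Fa Q, Hc m c r.2 r.1 * ∑ x ∈ Ioc 0 u, ee ((x : ℝ) * (α + r.2 / r.1)) := by
      rw [← h95_gm_sum]
      simp_rw [sub_mul]
      rw [sum_sub_distrib]
    rw [hfin]
    have hQ4 : (Q : ℝ) ^ 2 * (1 / (2 * (L ^ 103 / N))) ≤ N / L ^ 15 := by
      calc (Q : ℝ) ^ 2 * (1 / (2 * (L ^ 103 / N))) ≤ L ^ 88 * (1 / (2 * (L ^ 103 / N))) := by
            gcongr
        _ = (1 / 2) * (N / L ^ 15) := by field_simp
        _ ≤ N / L ^ 15 := by
            have : 0 < N / L ^ 15 := by positivity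
            linarith
    calc _ ≤ N / L ^ 15 + N / L ^ 15 :=
          (norm_sub_le _ _).trans (add_le_add hf (hg.trans hQ4))
      _ = 2 * N / L ^ 15 := by ring
      _ ≤ N / L ^ 14 := by
          rw [div_le_div_iff₀ (by positivity) (by positivity)]
          have : L ^ 15 = L * L ^ 14 := by ring
          rw [this]
          have h12 : 0 < (N : ℝ) * L ^ 14 := by positivity
          nlinarith

end Pool.Agent.helper74.TG
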