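import Pool.Agent.helper95.TG.WT4of
import Pool.Agent.helper61.TG.WT2of
import Pool.Agent.helper74.TG.SW

/-!
# TG (MP_d11331_al), wt:4: the weight is close to the model, final form
-/

namespace Pool.Agent.helper74.TG

open Finset ArithmeticFunction

/-- wt:4: the weight is close to the model. -/
theorem fw_close (m c : ℕ) (hm : 0 < m) (hc : Nat.Coprime c m) : ∃ N₀ : ℕ, ∀ N : ℕ, N₀ ≤ N →
    ∀ α : ℝ, ∀ u : ℕ, u ≤ N →
    ‖∑ x ∈ Ioc 0 u, ((fw m c x : ℂ) - gm m c ⌊Real.log N ^ 44⌋₊ x) * ee (x * α)‖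
      ≤ N / Real.log N ^ 14 :=
  fw_close_of m c (h61.fw_major_of siegel_walfisz 15 103 m c hm hc) hm hc

end Pool.Agent.helper74.TG
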